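import Mathlib

/-!
# Non-radial negative solutions of `Δu + p(|x|) q(e^u) = 4πN δ_0`

The plane `ℝ²` is identified with `ℂ` (Euclidean norm, Lebesgue measure, and Mathlib's Laplacian
`Δ` of the real inner product space `ℂ`).  For every real `N ≥ 0` we exhibit `p, q` satisfying
(H1)-(H8) and an explicit negative solution that is not radially symmetric about the origin; for
integers `N ≥ 1` the function `p` is constant.
-/

set_option autoImplicit false

namespace Pool.Agent.Results.MP_ad2fa1_an.NonRadial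

open MeasureTheory Laplacian InnerProductSpace Filter Topology Set

/-! ### The definitions of the problem -/

/-- `f(t) = e^{2t} p(e^t)`. -/
noncomputable def fOf (p : ℝ → ℝ) (t : ℝ) : ℝ := Real.exp (2 * t) * p (Real.exp t)

/-- `g(u) = q(e^u)`. -/
noncomputable def gOf (q : ℝ → ℝ) (u : ℝ) : ℝ := q (Real.exp u)

/-- `G_0(u) = ∫_{-∞}^u g`. -/
noncomputable def G0 (g : ℝ → ℝ) (u : ℝ) : ℝ := ∫ v in Iic u, g v

/-- The values `M > 0` with `∫_0^∞ f(t) g(-Mt) dt < ∞`. -/
def FinSet (f g : ℝ → ℝ) : Set ℝ :=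
  {M | 0 < M ∧ IntegrableOn (fun t => f t * g (-M * t)) (Ioi 0)}

/-- The hypotheses (H1)-(H8). -/
structure Hyp (f g : ℝ → ℝ) : Prop where
  H1 : ContDiff ℝ 1 f ∧ ContDiff ℝ 1 g ∧ IntegrableOn (fun t => |t * f t|) (Iic 0) ∧
    ∃ C, ∀ u, |g u| + |deriv g u| ≤ C
  H2 : (∀ t, 0 < f t) ∧ Tendsto f atTop atTop ∧ g 0 = 0 ∧ ∀ u < 0, 0 < g u
  H3 : ∀ t, 0 ≤ deriv f t
  H4 : ∃ M > 0, (∀ u < -M, 0 < deriv g u) ∧ M ∈ FinSet f g
  H5 : ¬ IntegrableOn (fun t => f t * g (-(sInf (FinSet f g)) * t)) (Ioi 0) ∧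
    ∀ c > 0, ∃ ε > 0, ∀ t > 0, ε ≤ f (t - c) / f t
  H67 : ∃ f1 g1 : ℝ, Tendsto (fun t => deriv f t / f t) atTop (𝓝 f1) ∧
    IntegrableOn g (Iic 0) ∧ Tendsto (fun u => G0 g u / g u) atBot (𝓝 g1) ∧
    (∀ t, f1 ≤ deriv f t / f t) ∧ ∀ u < 0, g1 ≤ G0 g u / g u
  H8 : ∃ δ > 0, ∀ u ∈ Icc (-δ) 0, deriv g u ≤ 0

/-- `u` is a distributional solution of `Δu + p(|x|) q(e^u) = 4πN δ_0` on the plane. -/
structure IsSolution (N : ℝ) (p q : ℝ → ℝ) (u : ℂ → ℝ) : Prop where
  locallyIntegrable : LocallyIntegrable u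
  smooth : ContDiffOn ℝ (⊤ : ℕ∞) u {0}ᶜ
  locallyIntegrable' : LocallyIntegrable (fun x => p ‖x‖ * q (Real.exp (u x)))
  equation : ∀ φ : ℂ → ℝ, ContDiff ℝ (⊤ : ℕ∞) φ → HasCompactSupport φ →
    (∫ x, u x * Δ φ x) + (∫ x, p ‖x‖ * q (Real.exp (u x)) * φ x) = 4 * Real.pi * N * φ 0

/-- `u` is negative: `u < 0` on `ℝ² ∖ {0}`. -/
def IsNegative (u : ℂ → ℝ) : Prop := ∀ x : ℂ, x ≠ 0 → u x < 0

/-- `u` is radially symmetric about the origin: away from the origin `u(x)` depends only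
on `|x|`. -/
def IsRadial (u : ℂ → ℝ) : Prop := ∀ x y : ℂ, x ≠ 0 → ‖x‖ = ‖y‖ → u x = u y

/-! ### Laplacians -/




section general
variable {E : Type*} [NormedAddCommGroup E] [InnerProductSpace ℝ E] [FiniteDimensional ℝ E]

/-- The Laplacian computed from the second derivative. -/
lemma laplacian_eq_of_hasFDerivAt {f : E → ℝ} {f' : E → E →L[ℝ] ℝ}
    {f'' : E →L[ℝ] E →L[ℝ] ℝ} {x : E} {ι : Type*} [Fintype ι] (b : OrthonormalBasis ι ℝ E)
    (h : ∀ᶠ y in nhds x, HasFDerivAt f (f' y) y) (h' : HasFDerivAt f' f'' x) :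
    Δ f x = ∑ i, f'' (b i) (b i) := by
  rw [laplacian_eq_iteratedFDeriv_orthonormalBasis f b]
  refine Finset.sum_congr rfl fun i _ => ?_
  rw [iteratedFDeriv_two_apply]
  have h1 : fderiv ℝ f =ᶠ[nhds x] f' := by
    filter_upwards [h] with y hy using hy.fderiv
  rw [h1.fderiv_eq, h'.fderiv]
  simp

/-- Laplacian of a function of `‖x‖²`. -/
lemma laplacian_comp_normSq {U U' U'' : ℝ → ℝ} {x : E}
    (h : ∀ᶠ s in nhds (‖x‖ ^ 2), HasDerivAt U (U' s) s)
    (h' : HasDerivAt U' (U'' (‖x‖ ^ 2)) (‖x‖ ^ 2)) :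
    Δ (fun y : E => U (‖y‖ ^ 2)) x =
      4 * ‖x‖ ^ 2 * U'' (‖x‖ ^ 2) + 2 * (Module.finrank ℝ E : ℝ) * U' (‖x‖ ^ 2) := by
  have hn : ∀ y : E, HasFDerivAt (fun y : E => ‖y‖ ^ 2) (2 • (innerSL ℝ y)) y := fun y =>
    (hasStrictFDerivAt_norm_sq y).hasFDerivAt
  have hcont : Continuous (fun y : E => ‖y‖ ^ 2) := by fun_prop
  have h1 : ∀ᶠ y in nhds x, HasFDerivAt (fun y : E => U (‖y‖ ^ 2))
      (U' (‖y‖ ^ 2) • (2 • (innerSL ℝ y))) y := by
    filter_upwards [hcont.continuousAt.eventually h] with y hy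
    exact hy.comp_hasFDerivAt y (hn y)
  have h2 : HasFDerivAt (fun y : E => U' (‖y‖ ^ 2)) (U'' (‖x‖ ^ 2) • (2 • (innerSL ℝ x))) x :=
    h'.comp_hasFDerivAt x (hn x)
  have h3 : HasFDerivAt (fun y : E => (2 : ℕ) • (innerSL ℝ y)) (2 • (innerSL ℝ : E →L[ℝ] E →L[ℝ] ℝ)) x :=
    ((2 : ℕ) • (innerSL ℝ : E →L[ℝ] E →L[ℝ] ℝ)).hasFDerivAt
  have h4 := h2.smul h3
  rw [laplacian_eq_of_hasFDerivAt (stdOrthonormalBasis ℝ E) h1 h4]
  have hsum := (stdOrthonormalBasis ℝ E).sum_sq_inner_left x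
  have hterm : ∀ i, (U' (‖x‖ ^ 2) • (2 • (innerSL ℝ : E →L[ℝ] E →L[ℝ] ℝ)) +
      (U'' (‖x‖ ^ 2) • (2 • (innerSL ℝ x))).smulRight ((2 : ℕ) • (innerSL ℝ x)))
        ((stdOrthonormalBasis ℝ E) i) ((stdOrthonormalBasis ℝ E) i) =
      4 * U'' (‖x‖ ^ 2) * (inner ℝ x ((stdOrthonormalBasis ℝ E) i)) ^ 2 + 2 * U' (‖x‖ ^ 2) := by
    intro i
    have : inner ℝ ((stdOrthonormalBasis ℝ E) i) ((stdOrthonormalBasis ℝ E) i) = (1 : ℝ) := by
      rw [real_inner_self_eq_norm_sq]; simp
    rw [add_apply, ContinuousLinearMap.smulRight_apply]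
    simp [this, -inner_self_eq_norm_sq_to_K]
    ring
  rw [Finset.sum_congr rfl fun i _ => hterm i, Finset.sum_add_distrib, ← Finset.mul_sum, hsum]
  simp
  ring

end general




section general
variable {E : Type*} [NormedAddCommGroup E] [InnerProductSpace ℝ E] [FiniteDimensional ℝ E]
  [MeasurableSpace E] [BorelSpace E]

lemma laplacian_eq_sum_fderiv {f : E → ℝ} (hf : ContDiff ℝ 2 f) (x : E) :
    Δ f x = ∑ i, fderiv ℝ (fun y => fderiv ℝ f y (stdOrthonormalBasis ℝ E i)) x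
      (stdOrthonormalBasis ℝ E i) := by
  rw [laplacian_eq_iteratedFDeriv_stdOrthonormalBasis f]
  refine Finset.sum_congr rfl fun i _ => ?_
  rw [iteratedFDeriv_two_apply]
  have h1 : DifferentiableAt ℝ (fderiv ℝ f) x :=
    (hf.fderiv_right (m := 1) (by norm_num)).differentiable (by norm_num) x
  rw [fderiv_clm_apply h1 (differentiableAt_const _)]
  simp

lemma contDiff_dir {f : E → ℝ} (hf : ContDiff ℝ 2 f) (v : E) :
    ContDiff ℝ 1 (fun y => fderiv ℝ f y v) :=
  (hf.fderiv_right (m := 1) (by norm_num)).clm_apply contDiff_const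

lemma hasCompactSupport_dir {f : E → ℝ} (hf : HasCompactSupport f) (v : E) :
    HasCompactSupport (fun y => fderiv ℝ f y v) := by
  have := hf.fderiv (𝕜 := ℝ)
  exact this.comp_left (g := fun L : E →L[ℝ] ℝ => L v) (by simp)

/-- Green's identity. -/
lemma green {v φ : E → ℝ} (hv : ContDiff ℝ 2 v) (hφ : ContDiff ℝ 2 φ)
    (hc : HasCompactSupport φ) : ∫ x, v x * Δ φ x = ∫ x, Δ v x * φ x := by
  have key : ∀ e : E, ∫ x, v x * fderiv ℝ (fun y => fderiv ℝ φ y e) x e =
      ∫ x, fderiv ℝ (fun y => fderiv ℝ v y e) x e * φ x := by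
    intro e
    have hv1 := contDiff_dir hv e
    have hφ1 := contDiff_dir hφ e
    have hφc := hasCompactSupport_dir hc e
    have hv2c : Continuous (fun x => fderiv ℝ (fun y => fderiv ℝ v y e) x e) :=
      (hv1.continuous_fderiv (by norm_num)).clm_apply continuous_const
    have hφ2c : Continuous (fun x => fderiv ℝ (fun y => fderiv ℝ φ y e) x e) :=
      (hφ1.continuous_fderiv (by norm_num)).clm_apply continuous_const
    have hφ2s : HasCompactSupport (fun x => fderiv ℝ (fun y => fderiv ℝ φ y e) x e) :=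
      (hφc.fderiv (𝕜 := ℝ)).comp_left (g := fun L : E →L[ℝ] ℝ => L e) (by simp)
    have s1 := integral_mul_fderiv_eq_neg_fderiv_mul_of_integrable (μ := volume) (f := v)
      (g := fun y => fderiv ℝ φ y e) (v := e)
      ((hv1.continuous.mul hφ1.continuous).integrable_of_hasCompactSupport hφc.mul_left)
      ((hv.continuous.mul hφ2c).integrable_of_hasCompactSupport hφ2s.mul_left)
      ((hv.continuous.mul hφ1.continuous).integrable_of_hasCompactSupport hφc.mul_left)
      (fun x _ => hv.differentiable (by norm_num) x)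
      (fun x _ => hφ1.differentiable (by norm_num) x)
    have s2 := integral_mul_fderiv_eq_neg_fderiv_mul_of_integrable (μ := volume)
      (f := fun y => fderiv ℝ v y e) (g := φ) (v := e)
      ((hv2c.mul hφ.continuous).integrable_of_hasCompactSupport hc.mul_left)
      ((hv1.continuous.mul hφ1.continuous).integrable_of_hasCompactSupport hφc.mul_left)
      ((hv1.continuous.mul hφ.continuous).integrable_of_hasCompactSupport hc.mul_left)
      (fun x _ => hv1.differentiable (by norm_num) x)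
      (fun x _ => hφ.differentiable (by norm_num) x)
    rw [s1, s2, neg_neg]
  simp_rw [laplacian_eq_sum_fderiv hv, laplacian_eq_sum_fderiv hφ, Finset.mul_sum, Finset.sum_mul]
  rw [integral_finsetSum, integral_finsetSum]
  · exact Finset.sum_congr rfl fun i _ => key _
  · intro i _
    have hv1 := contDiff_dir hv (stdOrthonormalBasis ℝ E i)
    exact (((hv1.continuous_fderiv (by norm_num)).clm_apply continuous_const).mul
      hφ.continuous).integrable_of_hasCompactSupport hc.mul_left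
  · intro i _
    have hφ1 := contDiff_dir hφ (stdOrthonormalBasis ℝ E i)
    exact (hv.continuous.mul ((hφ1.continuous_fderiv (by norm_num)).clm_apply
      continuous_const)).integrable_of_hasCompactSupport
      (((hasCompactSupport_dir hc _).fderiv (𝕜 := ℝ)).comp_left
        (g := fun L : E →L[ℝ] ℝ => L (stdOrthonormalBasis ℝ E i)) (by simp)).mul_left

end general




/-- The kernel `(1/π)(1+|w|²)^{-2}`. -/
noncomputable def ker (w : ℂ) : ℝ := Real.pi⁻¹ * (1 + ‖w‖ ^ 2)⁻¹ ^ 2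

lemma ker_nonneg (w : ℂ) : 0 ≤ ker w := by
  unfold ker; positivity

lemma integral_ker : ∫ w, ker w = 1 := by
  have h1 : ∫ y in Ioi (0 : ℝ), y * (1 + y ^ 2)⁻¹ ^ 2 = 1 / 2 := by
    have hd : ∀ x ∈ Ici (0 : ℝ), HasDerivAt (fun y : ℝ => -(1 / 2) * (1 + y ^ 2)⁻¹)
        (x * (1 + x ^ 2)⁻¹ ^ 2) x := by
      intro x _
      have h0 : (1 + x ^ 2) ≠ 0 := by positivity
      have h1 : HasDerivAt (fun y : ℝ => 1 + y ^ 2) (2 * x) x := by
        have := (hasDerivAt_pow 2 x).const_add 1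
        simpa using this
      have := (h1.inv h0).const_mul (-(1 / 2) : ℝ)
      refine this.congr_deriv ?_
      field_simp
    have ht : Tendsto (fun y : ℝ => -(1 / 2) * (1 + y ^ 2)⁻¹) atTop (𝓝 0) := by
      have h2 : Tendsto (fun y : ℝ => 1 + y ^ 2) atTop atTop :=
        tendsto_atTop_add_const_left _ _ (tendsto_pow_atTop (by norm_num))
      have := (tendsto_inv_atTop_zero.comp h2).const_mul (-(1 / 2) : ℝ)
      simpa using this
    have := integral_Ioi_of_hasDerivAt_of_nonneg (a := 0) (hd 0 (by simp)).continuousAt.continuousWithinAt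
      (fun x hx => hd x (mem_Ici.mpr (le_of_lt (mem_Ioi.mp hx)))) (fun x hx => by
        have : (0 : ℝ) < x := hx
        positivity) ht
    rw [this]; norm_num
  have h2 := integral_fun_norm_addHaar (volume : Measure ℂ) (fun y : ℝ => Real.pi⁻¹ * (1 + y ^ 2)⁻¹ ^ 2)
  have h3 : ∫ w, ker w = ∫ x : ℂ, (fun y : ℝ => Real.pi⁻¹ * (1 + y ^ 2)⁻¹ ^ 2) ‖x‖ := rfl
  rw [h3, h2]
  have h4 : (volume : Measure ℂ).real (Metric.ball 0 1) = Real.pi := by
    rw [Measure.real, Complex.volume_ball]; simp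
  rw [h4]
  have h5 : ∫ y in Ioi (0 : ℝ), y ^ (Module.finrank ℝ ℂ - 1) • (Real.pi⁻¹ * (1 + y ^ 2)⁻¹ ^ 2) =
      Real.pi⁻¹ * (1 / 2) := by
    rw [← h1, ← integral_const_mul]
    congr 1
    ext y
    simp [Complex.finrank_real_complex]
    ring
  rw [h5]
  simp [Complex.finrank_real_complex]

lemma tendsto_ker : Tendsto (fun x : ℂ => ‖x‖ ^ Module.finrank ℝ ℂ * ker x)
    (Bornology.cobounded ℂ) (𝓝 0) := by
  rw [Complex.finrank_real_complex]
  have h0 : Tendsto (fun r : ℝ => Real.pi⁻¹ * (r ^ 2)⁻¹) atTop (𝓝 0) := by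
    have := (tendsto_inv_atTop_zero.comp (tendsto_pow_atTop (α := ℝ) (n := 2) (by norm_num))).const_mul (Real.pi⁻¹)
    simpa using this
  have h1 := h0.comp (tendsto_norm_cobounded_atTop (E := ℂ))
  refine squeeze_zero' (Eventually.of_forall fun x => ?_) ?_ h1
  · exact mul_nonneg (by positivity) (ker_nonneg x)
  · have : ∀ᶠ x : ℂ in Bornology.cobounded ℂ, 0 < ‖x‖ :=
      (tendsto_norm_cobounded_atTop (E := ℂ)).eventually_gt_atTop 0
    filter_upwards [this] with x hx
    simp only [Function.comp_apply, ker]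
    rw [← mul_assoc, mul_comm (‖x‖ ^ 2), mul_assoc]
    refine mul_le_mul_of_nonneg_left ?_ (by positivity)
    rw [inv_pow, ← div_eq_mul_inv, ← one_div, div_le_div_iff₀ (by positivity) (by positivity)]
    nlinarith [sq_nonneg (‖x‖ ^ 2)]

lemma locInt_log : LocallyIntegrable (fun z : ℂ => Real.log ‖z‖) := by
  rw [locallyIntegrable_iff]
  intro K hK
  obtain ⟨R, hR⟩ := hK.isBounded.subset_ball 0
  refine IntegrableOn.mono_set ?_ hR
  rw [integrableOn_fun_norm_addHaar (volume : Measure ℂ) (f := Real.log)]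
  have : ContinuousOn (fun y : ℝ => y * Real.log y) (Icc 0 R) := Real.continuous_mul_log.continuousOn
  have h := this.integrableOn_Icc (μ := volume)
  refine (h.mono_set Ioo_subset_Icc_self).congr_fun ?_ measurableSet_Ioo
  intro y _
  simp [Complex.finrank_real_complex]

/-- The regularised logarithm. -/
noncomputable def Lc (c : ℝ) (z : ℂ) : ℝ := (1 / 2) * Real.log (‖z‖ ^ 2 + (c ^ 2)⁻¹)

lemma contDiff_Lc {c : ℝ} (hc : 0 < c) : ContDiff ℝ 2 (Lc c) := by
  unfold Lc
  refine contDiff_const.mul (ContDiff.log ?_ ?_)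
  · exact (contDiff_norm_sq ℝ).add contDiff_const
  · intro x; positivity

lemma laplacian_Lc {c : ℝ} (hc : 0 < c) (z : ℂ) :
    Δ (Lc c) z = 2 * Real.pi * (c ^ 2 * ker (c • z)) := by
  have h := laplacian_comp_normSq (E := ℂ) (x := z) (U := fun s => (1 / 2) * Real.log (s + (c ^ 2)⁻¹))
    (U' := fun s => (1 / 2) * (s + (c ^ 2)⁻¹)⁻¹)
    (U'' := fun s => -(1 / 2) * ((s + (c ^ 2)⁻¹)⁻¹) ^ 2) ?_ ?_
  · have e : Lc c = fun y : ℂ => (fun s => (1 / 2) * Real.log (s + (c ^ 2)⁻¹)) (‖y‖ ^ 2) := rfl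
    rw [e, h, Complex.finrank_real_complex]
    simp only [ker, norm_smul, Real.norm_eq_abs, abs_of_pos hc]
    have h0 : (‖z‖ ^ 2 + (c ^ 2)⁻¹) ≠ 0 := by positivity
    have h1 : 1 + (c * ‖z‖) ^ 2 ≠ 0 := by positivity
    have h2 : c ≠ 0 := hc.ne'
    have h3 : Real.pi ≠ 0 := Real.pi_ne_zero
    have h4 : (‖z‖ ^ 2 + (c ^ 2)⁻¹) = (1 + (c * ‖z‖) ^ 2) / c ^ 2 := by
      field_simp; ring
    rw [h4]
    field_simp
    push_cast
    ring
  · have : ∀ᶠ s in 𝓝 (‖z‖ ^ 2), 0 < s + (c ^ 2)⁻¹ := by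
      have h1 : Continuous fun s : ℝ => s + (c ^ 2)⁻¹ := by fun_prop
      have h2 : 0 < ‖z‖ ^ 2 + (c ^ 2)⁻¹ := by positivity
      exact h1.continuousAt.eventually (lt_mem_nhds h2)
    filter_upwards [this] with s hs
    have := ((hasDerivAt_id s).add_const ((c ^ 2)⁻¹)).log (by simpa using hs.ne')
    have := this.const_mul (1 / 2 : ℝ)
    simpa [one_div] using this
  · have h2 : ‖z‖ ^ 2 + (c ^ 2)⁻¹ ≠ 0 := by positivity
    have h3 : HasDerivAt (fun s : ℝ => s + (c ^ 2)⁻¹) 1 (‖z‖ ^ 2) :=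
      (hasDerivAt_id (‖z‖ ^ 2)).add_const _
    have := (h3.inv h2).const_mul (1 / 2 : ℝ)
    refine this.congr_deriv ?_
    field_simp

/-- `Δ log|z| = 2π δ`. -/
lemma integral_log_laplacian {φ : ℂ → ℝ} (hφ : ContDiff ℝ 2 φ) (hc : HasCompactSupport φ) :
    ∫ z : ℂ, Real.log ‖z‖ * Δ φ z = 2 * Real.pi * φ 0 := by
  have hΔc : Continuous (Δ φ) := by
    have : Δ φ = fun x => ∑ i, fderiv ℝ (fun y => fderiv ℝ φ y (stdOrthonormalBasis ℝ ℂ i)) x
      (stdOrthonormalBasis ℝ ℂ i) := by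
      ext x; exact laplacian_eq_sum_fderiv hφ x
    rw [this]
    refine continuous_finsetSum _ fun i _ => ?_
    exact ((contDiff_dir hφ _).continuous_fderiv (by norm_num)).clm_apply continuous_const
  have hΔs : HasCompactSupport (Δ φ) := by
    have : Δ φ = fun x => ∑ i, fderiv ℝ (fun y => fderiv ℝ φ y (stdOrthonormalBasis ℝ ℂ i)) x
      (stdOrthonormalBasis ℝ ℂ i) := by
      ext x; exact laplacian_eq_sum_fderiv hφ x
    rw [this]
    refine HasCompactSupport.intro (K := tsupport φ) hc fun x hx => ?_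
    refine Finset.sum_eq_zero fun i _ => ?_
    have h1 : x ∉ tsupport (fun y => fderiv ℝ φ y (stdOrthonormalBasis ℝ ℂ i)) :=
      fun h => hx (tsupport_fderiv_apply_subset ℝ _ h)
    rw [fderiv_of_notMem_tsupport _ h1]
    rfl
  have lim1 : Tendsto (fun c : ℝ => ∫ z, Lc c z * Δ φ z) atTop (𝓝 (2 * Real.pi * φ 0)) := by
    have h := tendsto_integral_comp_smul_smul_of_integrable (μ := (volume : Measure ℂ))
      ker_nonneg integral_ker tendsto_ker
      (hφ.continuous.integrable_of_hasCompactSupport hc) hφ.continuous.continuousAt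
    have h' := h.const_mul (2 * Real.pi)
    refine h'.congr' ?_
    filter_upwards [eventually_gt_atTop 0] with c hc0
    rw [green (contDiff_Lc hc0) hφ hc, ← integral_const_mul]
    congr 1
    ext z
    rw [laplacian_Lc hc0, Complex.finrank_real_complex]
    simp
    ring
  have lim2 : Tendsto (fun c : ℝ => ∫ z, Lc c z * Δ φ z) atTop
      (𝓝 (∫ z : ℂ, Real.log ‖z‖ * Δ φ z)) := by
    apply tendsto_integral_filter_of_dominated_convergence
      (fun z => (|Real.log ‖z‖| + (1 / 2) * Real.log (‖z‖ ^ 2 + 1)) * |Δ φ z|)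
    · filter_upwards [eventually_gt_atTop 0] with c hc0
      exact ((contDiff_Lc hc0).continuous.mul hΔc).aestronglyMeasurable
    · filter_upwards [eventually_ge_atTop 1] with c hc1
      have hz : ∀ᵐ z : ℂ, z ≠ 0 := by
        rw [ae_iff]; simp
      filter_upwards [hz] with z hz0
      rw [norm_mul, Real.norm_eq_abs, Real.norm_eq_abs]
      refine mul_le_mul_of_nonneg_right ?_ (abs_nonneg _)
      have hzp : 0 < ‖z‖ := norm_pos_iff.mpr hz0
      have hcp : (0 : ℝ) < (c ^ 2)⁻¹ := by positivity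
      have hcle : (c ^ 2)⁻¹ ≤ 1 := inv_le_one_of_one_le₀ (by nlinarith)
      have lo : Real.log ‖z‖ ≤ Lc c z := by
        have : Real.log ‖z‖ = (1 / 2) * Real.log (‖z‖ ^ 2) := by
          rw [Real.log_pow]; push_cast; ring
        rw [this, Lc]
        have := Real.log_le_log (x := ‖z‖ ^ 2) (y := ‖z‖ ^ 2 + (c ^ 2)⁻¹) (by positivity) (by linarith)
        linarith
      have hi : Lc c z ≤ (1 / 2) * Real.log (‖z‖ ^ 2 + 1) := by
        rw [Lc]
        have := Real.log_le_log (x := ‖z‖ ^ 2 + (c ^ 2)⁻¹) (y := ‖z‖ ^ 2 + 1) (by positivity) (by linarith)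
        linarith
      have h0 : 0 ≤ Real.log (‖z‖ ^ 2 + 1) := Real.log_nonneg (by nlinarith)
      rw [abs_le]
      constructor
      · have := neg_abs_le (Real.log ‖z‖)
        linarith
      · have := abs_nonneg (Real.log ‖z‖)
        linarith
    · have i1 : Integrable (fun z : ℂ => |Real.log ‖z‖| * |Δ φ z|) := by
        have := (locInt_log.integrable_smul_right_of_hasCompactSupport hΔc hΔs).norm
        simpa [norm_mul] using this
      have i2 : Integrable (fun z : ℂ => (1 / 2) * Real.log (‖z‖ ^ 2 + 1) * |Δ φ z|) := by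
        refine Continuous.integrable_of_hasCompactSupport ?_ ?_
        · refine Continuous.mul (continuous_const.mul (Continuous.log (by fun_prop) ?_)) hΔc.abs
          intro x; positivity
        · exact (hΔs.comp_left (g := fun t : ℝ => |t|) (by simp)).mul_left
      refine (i1.add i2).congr (Eventually.of_forall fun z => ?_)
      simp only [Pi.add_apply]
      ring
    · have hz : ∀ᵐ z : ℂ, z ≠ 0 := by
        rw [ae_iff]; simp
      filter_upwards [hz] with z hz0
      refine Tendsto.mul_const _ ?_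
      have hzp : 0 < ‖z‖ := norm_pos_iff.mpr hz0
      have e : Real.log ‖z‖ = (1 / 2) * Real.log (‖z‖ ^ 2 + 0) := by
        rw [add_zero, Real.log_pow]; push_cast; ring
      rw [e]
      refine Tendsto.const_mul _ (Tendsto.log ?_ (by positivity))
      refine Tendsto.const_add _ ?_
      exact tendsto_inv_atTop_zero.comp (tendsto_pow_atTop (by norm_num))
  exact tendsto_nhds_unique lim2 lim1




/-- Conformal invariance of the Laplacian. -/
lemma laplacian_comp_holo {G : ℂ → ℝ} (hG : ContDiff ℝ 2 G) {F F' : ℂ → ℂ} {F'' z : ℂ}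
    (hF : ∀ y, HasDerivAt F (F' y) y) (hF' : HasDerivAt F' F'' z) :
    Δ (fun y => G (F y)) z = ‖F' z‖ ^ 2 * Δ G (F z) := by
  have hG1 : ∀ w, HasFDerivAt G (fderiv ℝ G w) w := fun w =>
    (hG.differentiable (by norm_num) w).hasFDerivAt
  have hG2 : ∀ w, HasFDerivAt (fderiv ℝ G) (fderiv ℝ (fderiv ℝ G) w) w := fun w =>
    (((hG.fderiv_right (m := 1) (by norm_num)).differentiable (by norm_num)) w).hasFDerivAt
  have hFr : ∀ y, HasFDerivAt F (F' y • (1 : ℂ →L[ℝ] ℂ)) y := fun y => (hF y).complexToReal_fderiv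
  have hFr' : HasFDerivAt F' (F'' • (1 : ℂ →L[ℝ] ℂ)) z := hF'.complexToReal_fderiv
  have h1 : ∀ y, HasFDerivAt (fun y => G (F y)) ((fderiv ℝ G (F y)).comp
      (F' y • (1 : ℂ →L[ℝ] ℂ))) y := fun y => (hG1 (F y)).comp y (hFr y)
  have hd : HasFDerivAt (fun y => F' y • (1 : ℂ →L[ℝ] ℂ))
      ((F'' • (1 : ℂ →L[ℝ] ℂ)).smulRight (1 : ℂ →L[ℝ] ℂ)) z := by
    exact hFr'.smul_const (1 : ℂ →L[ℝ] ℂ)
  have hc : HasFDerivAt (fun y => fderiv ℝ G (F y)) ((fderiv ℝ (fderiv ℝ G) (F z)).comp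
      (F' z • (1 : ℂ →L[ℝ] ℂ))) z := (hG2 (F z)).comp z (hFr z)
  have h2 := hc.clm_comp hd
  rw [laplacian_eq_of_hasFDerivAt Complex.orthonormalBasisOneI (Eventually.of_forall h1) h2]
  rw [laplacian_eq_of_hasFDerivAt Complex.orthonormalBasisOneI (Eventually.of_forall hG1)
    (hG2 (F z))]
  simp only [Fin.sum_univ_two, Complex.coe_orthonormalBasisOneI]
  set D := fderiv ℝ (fderiv ℝ G) (F z) with hD
  set a := (F' z).re with ha
  set b := (F' z).im with hb
  have hFz : F' z = (a : ℂ) + (b : ℂ) * Complex.I := by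
    rw [ha, hb]; exact (Complex.re_add_im _).symm
  have hn : ‖F' z‖ ^ 2 = a ^ 2 + b ^ 2 := by
    rw [← Complex.normSq_eq_norm_sq, Complex.normSq_apply]; ring
  have e1 : F' z = a • (1 : ℂ) + b • Complex.I := by
    rw [hFz]; simp
  have e2 : (a • (1 : ℂ) + b • Complex.I) * Complex.I = a • Complex.I - b • (1 : ℂ) := by
    rw [add_mul, smul_mul_assoc, smul_mul_assoc, Complex.I_mul_I]; simp [sub_eq_add_neg]
  have e3 : F'' * Complex.I * Complex.I = - F'' := by
    rw [mul_assoc, Complex.I_mul_I]; simp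
  simp only [add_apply, ContinuousLinearMap.comp_apply, ContinuousLinearMap.flip_apply,
    ContinuousLinearMap.compL_apply, smul_apply, ContinuousLinearMap.smulRight_apply,
    one_apply_eq_self, smul_eq_mul, mul_one, Matrix.cons_val_zero,
    Matrix.cons_val_one, Matrix.cons_val_fin_one]
  rw [hn, e1, e2, e3]
  simp only [map_add, map_sub, map_smul, map_neg, add_apply, sub_apply, smul_apply, smul_eq_mul]
  ring

/-! ### The functions `p`, `q` -/



/-- Gluing two differentiable functions. -/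
lemma hasDerivAt_glue {f₁ f₂ f₁' f₂' : ℝ → ℝ} (a : ℝ) (h₁ : ∀ x, HasDerivAt f₁ (f₁' x) x)
    (h₂ : ∀ x, HasDerivAt f₂ (f₂' x) x) (hv : f₁ a = f₂ a) (hd : f₁' a = f₂' a) (x : ℝ) :
    HasDerivAt (fun u => if u ≤ a then f₁ u else f₂ u) (if x ≤ a then f₁' x else f₂' x) x := by
  rcases lt_trichotomy x a with hx | hx | hx
  · rw [if_pos hx.le]
    refine (h₁ x).congr_of_eventuallyEq ?_
    filter_upwards [Iio_mem_nhds hx] with u hu
    exact if_pos (le_of_lt hu)
  · subst hx
    rw [if_pos le_rfl]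
    have e1 : HasDerivWithinAt (fun u => if u ≤ x then f₁ u else f₂ u) (f₁' x) (Iic x) x := by
      refine (h₁ x).hasDerivWithinAt.congr (fun u hu => if_pos hu) (if_pos le_rfl)
    have e2 : HasDerivWithinAt (fun u => if u ≤ x then f₁ u else f₂ u) (f₁' x) (Ici x) x := by
      rw [hd]
      refine (h₂ x).hasDerivWithinAt.congr (fun u hu => ?_) ?_
      · rcases eq_or_lt_of_le (show x ≤ u from hu) with rfl | hlt
        · simp [hv]
        · exact if_neg (not_le.mpr hlt)
      · simp [hv]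
    have := e1.union e2
    rwa [Iic_union_Ici, hasDerivWithinAt_univ] at this
  · rw [if_neg (not_le.mpr hx)]
    refine (h₂ x).congr_of_eventuallyEq ?_
    filter_upwards [Ioi_mem_nhds hx] with u hu
    exact if_neg (not_le.mpr hu)

lemma continuous_glue {f₁ f₂ : ℝ → ℝ} (a : ℝ) (h₁ : Continuous f₁) (h₂ : Continuous f₂)
    (hv : f₁ a = f₂ a) : Continuous (fun u => if u ≤ a then f₁ u else f₂ u) :=
  Continuous.if_le h₁ h₂ continuous_id continuous_const (fun x hx => by rw [show x = a from hx, hv])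

lemma hasDerivAt_maxpow (n : ℕ) (x : ℝ) :
    HasDerivAt (fun u : ℝ => (max (1 + u) 0) ^ (n + 2)) ((n + 2) * (max (1 + x) 0) ^ (n + 1)) x := by
  have h := hasDerivAt_glue (f₁ := fun _ => 0) (f₂ := fun u : ℝ => (1 + u) ^ (n + 2))
    (f₁' := fun _ => 0) (f₂' := fun u : ℝ => (n + 2) * (1 + u) ^ (n + 1)) (-1)
    (fun x => hasDerivAt_const x 0) (fun x => by
      have := ((hasDerivAt_id x).const_add 1).pow (n + 2)
      exact this.congr_deriv (by simp)) (by simp) (by simp) x
  have e1 : (fun u : ℝ => (max (1 + u) 0) ^ (n + 2)) =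
      fun u => if u ≤ -1 then (0 : ℝ) else (1 + u) ^ (n + 2) := by
    ext u
    split_ifs with hu
    · rw [max_eq_right (by linarith)]; simp
    · rw [max_eq_left (by linarith)]
  have e2 : (n + 2) * (max (1 + x) 0) ^ (n + 1) =
      if x ≤ -1 then (0 : ℝ) else (n + 2) * (1 + x) ^ (n + 1) := by
    split_ifs with hu
    · rw [max_eq_right (by linarith)]; simp
    · rw [max_eq_left (by linarith)]
  rw [e1, e2]
  exact h

/-- The nonlinearity `g`: `e^u - ((1+u)_+)²` for `u ≤ 0` and `e^{-u} - 1` for `u > 0`. -/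
noncomputable def gf (u : ℝ) : ℝ :=
  if u ≤ 0 then Real.exp u - (max (1 + u) 0) ^ 2 else Real.exp (-u) - 1

/-- Its derivative. -/
noncomputable def gf' (u : ℝ) : ℝ :=
  if u ≤ 0 then Real.exp u - 2 * max (1 + u) 0 else -Real.exp (-u)

lemma hasDerivAt_gf (x : ℝ) : HasDerivAt gf (gf' x) x := by
  unfold gf gf'
  refine hasDerivAt_glue (f₁ := fun u => Real.exp u - (max (1 + u) 0) ^ 2)
    (f₂ := fun u => Real.exp (-u) - 1) (f₁' := fun u => Real.exp u - 2 * max (1 + u) 0)
    (f₂' := fun u => -Real.exp (-u)) 0 ?_ ?_ ?_ ?_ x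
  · intro x
    have := (Real.hasDerivAt_exp x).sub (hasDerivAt_maxpow 0 x)
    exact this.congr_deriv (by simp)
  · intro x
    have := ((hasDerivAt_neg x).exp).sub_const 1
    simpa using this
  · simp
  · simp; norm_num

lemma deriv_gf : deriv gf = gf' := funext fun x => (hasDerivAt_gf x).deriv

lemma continuous_gf' : Continuous gf' := by
  unfold gf'
  refine continuous_glue 0 (by fun_prop) (by fun_prop) ?_
  simp; norm_num

lemma contDiff_gf : ContDiff ℝ 1 gf := by
  rw [contDiff_one_iff_deriv]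
  exact ⟨fun x => (hasDerivAt_gf x).differentiableAt, by rw [deriv_gf]; exact continuous_gf'⟩

lemma gf_of_le {u : ℝ} (hu : u ≤ -1) : gf u = Real.exp u := by
  rw [gf, if_pos (by linarith), max_eq_right (by linarith)]; simp

lemma gf_pos {u : ℝ} (hu : u < 0) : 0 < gf u := by
  rw [gf, if_pos hu.le]
  rcases le_or_gt u (-1) with h | h
  · rw [max_eq_right (by linarith)]; simp [Real.exp_pos]
  · rw [max_eq_left (by linarith)]
    have h1 : 1 + u / 2 ≤ Real.exp (u / 2) := by
      have := Real.add_one_le_exp (u / 2); linarith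
    have h2 : Real.exp u = Real.exp (u / 2) ^ 2 := by
      rw [← Real.exp_nat_mul]; congr 1; push_cast; ring
    rw [h2]
    nlinarith [Real.exp_pos (u / 2)]

lemma gf_le_exp {u : ℝ} (hu : u ≤ 0) : gf u ≤ Real.exp u := by
  rw [gf, if_pos hu]
  have := sq_nonneg (max (1 + u) 0)
  linarith

lemma gf_zero : gf 0 = 0 := by simp [gf]

lemma gf_nonneg {u : ℝ} (hu : u ≤ 0) : 0 ≤ gf u := by
  rcases eq_or_lt_of_le hu with rfl | h
  · rw [gf_zero]
  · exact (gf_pos h).le

lemma gf_bound : ∀ u, |gf u| + |deriv gf u| ≤ 4 := by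
  intro u
  rw [deriv_gf]
  rcases le_or_gt u 0 with h | h
  · have h1 := gf_nonneg h
    have h2 := gf_le_exp h
    have h3 : Real.exp u ≤ 1 := Real.exp_le_one_iff.mpr h
    have h4 : 0 < Real.exp u := Real.exp_pos u
    have h5 : |gf' u| ≤ 2 := by
      rw [gf', if_pos h, abs_le]
      have h6 : max (1 + u) 0 ≤ 1 := max_le (by linarith) (by norm_num)
      have h7 : 0 ≤ max (1 + u) 0 := le_max_right _ _
      constructor <;> linarith
    rw [abs_of_nonneg h1]
    linarith
  · have h3 : Real.exp (-u) ≤ 1 := Real.exp_le_one_iff.mpr (by linarith)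
    have h4 : 0 < Real.exp (-u) := Real.exp_pos _
    have h5 : |gf' u| ≤ 1 := by
      rw [gf', if_neg (not_le.mpr h), abs_neg, abs_of_pos h4]; exact h3
    have h6 : |gf u| ≤ 1 := by
      rw [gf, if_neg (not_le.mpr h), abs_le]; constructor <;> linarith
    linarith

lemma continuous_gf : Continuous gf := contDiff_gf.continuous

lemma integrableOn_gf : IntegrableOn gf (Iic 0) := by
  refine (integrableOn_exp_Iic 0).mono' continuous_gf.aestronglyMeasurable ?_
  filter_upwards [ae_restrict_mem measurableSet_Iic] with u hu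
  rw [Real.norm_eq_abs, abs_of_nonneg (gf_nonneg hu)]
  exact gf_le_exp hu

lemma G0_gf {u : ℝ} (hu : u < 0) : G0 gf u = Real.exp u - (max (1 + u) 0) ^ 3 / 3 := by
  unfold G0
  have hd : ∀ x ∈ Iic u, HasDerivAt (fun v : ℝ => Real.exp v - (max (1 + v) 0) ^ 3 / 3) (gf x) x := by
    intro x hx
    have hx0 : x ≤ 0 := le_trans hx hu.le
    have := (Real.hasDerivAt_exp x).sub ((hasDerivAt_maxpow 1 x).div_const 3)
    refine this.congr_deriv ?_
    rw [gf, if_pos hx0]
    push_cast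
    ring
  have ht : Tendsto (fun v : ℝ => Real.exp v - (max (1 + v) 0) ^ 3 / 3) atBot (𝓝 0) := by
    refine Real.tendsto_exp_atBot.congr' ?_
    filter_upwards [eventually_le_atBot (-1)] with v hv
    rw [max_eq_right (by linarith)]; simp
  have := integral_Iic_of_hasDerivAt_of_tendsto' hd
    (integrableOn_gf.mono_set (Iic_subset_Iic.mpr hu.le)) ht
  rw [this]; simp

/-- The function `f(t) = p0 e^{Lt}`. -/
noncomputable def ff (p0 L t : ℝ) : ℝ := p0 * Real.exp (L * t)

lemma hasDerivAt_ff (p0 L x : ℝ) : HasDerivAt (ff p0 L) (L * ff p0 L x) x := by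
  unfold ff
  have := (((hasDerivAt_id x).const_mul L).exp).const_mul p0
  refine this.congr_deriv ?_
  simp; ring

lemma mem_FinSet_iff {p0 L : ℝ} (hp : 0 < p0) (hL : 0 < L) (M : ℝ) :
    M ∈ FinSet (ff p0 L) gf ↔ L < M := by
  have hcont : ∀ M, Continuous (fun t => ff p0 L t * gf (-M * t)) := by
    intro M
    unfold ff
    have := continuous_gf
    fun_prop
  constructor
  · rintro ⟨hM, hint⟩
    by_contra hLM
    push Not at hLM
    have hs : Ioi (1 / M) ⊆ Ioi 0 := Ioi_subset_Ioi (by positivity)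
    have h1 : IntegrableOn (fun _ : ℝ => p0) (Ioi (1 / M)) := by
      refine (hint.mono_set hs).mono' aestronglyMeasurable_const ?_
      filter_upwards [ae_restrict_mem measurableSet_Ioi] with t ht
      have ht' : 1 / M < t := ht
      have htM : 1 ≤ M * t := by
        rw [div_lt_iff₀ hM] at ht'; linarith
      have ht0 : 0 < t := lt_trans (by positivity) ht'
      rw [gf_of_le (by linarith : -M * t ≤ -1), Real.norm_eq_abs, abs_of_pos hp, ff, mul_assoc,
        ← Real.exp_add]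
      have : 1 ≤ Real.exp (L * t + -M * t) := by
        apply Real.one_le_exp
        nlinarith
      nlinarith
    rw [integrableOn_const_iff] at h1
    rcases h1 with h1 | h1
    · exact hp.ne' (enorm_eq_zero.mp h1)
    · simp at h1
  · intro hLM
    have hM : 0 < M := hL.trans hLM
    refine ⟨hM, ?_⟩
    have h1 : IntegrableOn (fun t => p0 * Real.exp (-(M - L) * t)) (Ioi 0) :=
      (exp_neg_integrableOn_Ioi 0 (by linarith)).const_mul p0
    refine h1.mono' (hcont M).aestronglyMeasurable ?_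
    filter_upwards [ae_restrict_mem measurableSet_Ioi] with t ht
    have ht0 : 0 < t := ht
    have hneg : -M * t ≤ 0 := by nlinarith
    rw [Real.norm_eq_abs, abs_mul, abs_of_nonneg (gf_nonneg hneg), ff, abs_mul, abs_of_pos hp,
      abs_of_pos (Real.exp_pos _), mul_assoc]
    refine mul_le_mul_of_nonneg_left ?_ hp.le
    calc Real.exp (L * t) * gf (-M * t) ≤ Real.exp (L * t) * Real.exp (-M * t) :=
          mul_le_mul_of_nonneg_left (gf_le_exp hneg) (Real.exp_pos _).le
      _ = Real.exp (-(M - L) * t) := by rw [← Real.exp_add]; congr 1; ring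

lemma hyp_ff_gf {p0 L : ℝ} (hp : 0 < p0) (hL : 0 < L) : Hyp (ff p0 L) gf := by
  have hfpos : ∀ t, 0 < ff p0 L t := fun t => mul_pos hp (Real.exp_pos _)
  have hder : deriv (ff p0 L) = fun t => L * ff p0 L t := funext fun t => (hasDerivAt_ff p0 L t).deriv
  have hratio : ∀ t, deriv (ff p0 L) t / ff p0 L t = L := by
    intro t
    rw [hder]
    simp only
    rw [mul_div_assoc, div_self (hfpos t).ne', mul_one]
  have hset : FinSet (ff p0 L) gf = Ioi L := by
    ext M; exact mem_FinSet_iff hp hL M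
  refine ⟨⟨?_, contDiff_gf, ?_, 4, gf_bound⟩, ⟨hfpos, ?_, gf_zero, fun u hu => gf_pos hu⟩, ?_,
    ⟨L + 1, by linarith, ?_, ?_⟩, ⟨?_, ?_⟩, ⟨L, 1, ?_, integrableOn_gf, ?_, ?_, ?_⟩, ?_⟩
  · unfold ff
    exact contDiff_const.mul (Real.contDiff_exp.comp (contDiff_const.mul contDiff_id))
  · -- integrability of `|t f(t)|`
    have h1 : IntegrableOn (fun t => (2 / L * p0) * Real.exp (L / 2 * t)) (Iic 0) :=
      (integrableOn_exp_mul_Iic (by linarith : 0 < L / 2) 0).const_mul _
    refine h1.mono' ?_ ?_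
    · have : Continuous (fun t => |t * ff p0 L t|) := by unfold ff; fun_prop
      exact this.aestronglyMeasurable
    · filter_upwards [ae_restrict_mem measurableSet_Iic] with t ht
      have ht0 : t ≤ 0 := ht
      rw [Real.norm_eq_abs, abs_abs, abs_mul, abs_of_nonpos ht0, abs_of_pos (hfpos t), ff]
      have h2 : -(L / 2) * t ≤ Real.exp (-(L / 2) * t) := by
        have := Real.add_one_le_exp (-(L / 2) * t); linarith
      have h3 : Real.exp (L * t) = Real.exp (L / 2 * t) * Real.exp (L / 2 * t) := by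
        rw [← Real.exp_add]; congr 1; ring
      have h4 : Real.exp (-(L / 2) * t) * Real.exp (L / 2 * t) = 1 := by
        rw [← Real.exp_add]; simp
      have h5 : 0 < Real.exp (L / 2 * t) := Real.exp_pos _
      have h6 : (-(L / 2) * t) * Real.exp (L / 2 * t) ≤ 1 := by
        rw [← h4]; exact mul_le_mul_of_nonneg_right h2 h5.le
      rw [h3]
      have h7 : -t * (p0 * (Real.exp (L / 2 * t) * Real.exp (L / 2 * t))) =
          (2 / L * p0) * Real.exp (L / 2 * t) * ((-(L / 2) * t) * Real.exp (L / 2 * t)) := by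
        field_simp
      rw [h7]
      have h8 : 0 ≤ (2 / L * p0) * Real.exp (L / 2 * t) := by positivity
      calc _ ≤ (2 / L * p0) * Real.exp (L / 2 * t) * 1 := mul_le_mul_of_nonneg_left h6 h8
        _ = _ := mul_one _
  · unfold ff
    exact (Real.tendsto_exp_atTop.comp (tendsto_id.const_mul_atTop hL)).const_mul_atTop hp
  · intro t
    rw [hder]
    exact (mul_pos hL (hfpos t)).le
  · intro u hu
    rw [deriv_gf, gf', if_pos (by linarith), max_eq_right (by linarith)]
    simp [Real.exp_pos]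
  · rw [hset]; exact mem_Ioi.mpr (by linarith)
  · rw [hset, csInf_Ioi]
    intro hint
    have : L ∈ FinSet (ff p0 L) gf := ⟨hL, hint⟩
    rw [hset] at this
    exact lt_irrefl _ (mem_Ioi.mp this)
  · intro c _
    refine ⟨Real.exp (-(L * c)), Real.exp_pos _, fun t _ => ?_⟩
    rw [le_div_iff₀ (hfpos t), ff, ff]
    have : Real.exp (L * (t - c)) = Real.exp (-(L * c)) * Real.exp (L * t) := by
      rw [← Real.exp_add]; congr 1; ring
    rw [this]
    apply le_of_eq; ring
  · simp only [hratio]; exact tendsto_const_nhds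
  · refine (tendsto_const_nhds (x := (1 : ℝ))).congr' ?_
    filter_upwards [eventually_le_atBot (-1)] with u hu
    rw [G0_gf (by linarith), gf_of_le hu, max_eq_right (by linarith)]
    simp [(Real.exp_pos u).ne']
  · intro t; rw [hratio]
  · intro u hu
    rw [le_div_iff₀ (gf_pos hu), one_mul, G0_gf hu, gf, if_pos hu.le]
    have h1 : 0 ≤ max (1 + u) 0 := le_max_right _ _
    have h2 : max (1 + u) 0 ≤ 1 := max_le (by linarith) (by norm_num)
    nlinarith [mul_nonneg (sq_nonneg (max (1 + u) 0)) (by linarith : 0 ≤ 3 - max (1 + u) 0)]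
  · refine ⟨1 / 2, by norm_num, fun u hu => ?_⟩
    rw [deriv_gf, gf', if_pos hu.2]
    have h1 : Real.exp u ≤ 1 := Real.exp_le_one_iff.mpr hu.2
    have h2 : 1 + u ≤ max (1 + u) 0 := le_max_left _ _
    have h3 := hu.1
    linarith




/-! ### The explicit solution -/

/-- `-2 log(1+|w|²)`. -/
noncomputable def Gl (w : ℂ) : ℝ := -2 * Real.log (1 + ‖w‖ ^ 2)

lemma contDiff_Gl {m : WithTop ℕ∞} : ContDiff ℝ m Gl := by
  unfold Gl
  refine contDiff_const.mul (ContDiff.log ?_ ?_)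
  · exact contDiff_const.add (contDiff_norm_sq ℝ)
  · intro x; positivity

lemma laplacian_Gl (w : ℂ) : Δ Gl w = -8 * ((1 + ‖w‖ ^ 2)⁻¹) ^ 2 := by
  have h := laplacian_comp_normSq (E := ℂ) (x := w) (U := fun s => -2 * Real.log (1 + s))
    (U' := fun s => -2 * (1 + s)⁻¹)
    (U'' := fun s => 2 * ((1 + s)⁻¹) ^ 2) ?_ ?_
  · have e : Gl = fun y : ℂ => (fun s => -2 * Real.log (1 + s)) (‖y‖ ^ 2) := rfl
    rw [e, h, Complex.finrank_real_complex]
    have h0 : (1 + ‖w‖ ^ 2) ≠ 0 := by positivity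
    field_simp
    push_cast
    ring
  · have : ∀ᶠ s in 𝓝 (‖w‖ ^ 2), 0 < 1 + s := by
      have h1 : Continuous fun s : ℝ => 1 + s := by fun_prop
      have h2 : 0 < 1 + ‖w‖ ^ 2 := by positivity
      exact h1.continuousAt.eventually (lt_mem_nhds h2)
    filter_upwards [this] with s hs
    have h3 : HasDerivAt (fun s : ℝ => 1 + s) 1 s := (hasDerivAt_id s).const_add 1
    have := (h3.log hs.ne').const_mul (-2 : ℝ)
    refine this.congr_deriv ?_
    simp
  · have h2 : 1 + ‖w‖ ^ 2 ≠ 0 := by positivity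
    have h3 : HasDerivAt (fun s : ℝ => 1 + s) 1 (‖w‖ ^ 2) := (hasDerivAt_id _).const_add 1
    have := (h3.inv h2).const_mul (-2 : ℝ)
    refine this.congr_deriv ?_
    field_simp

/-- `F(z) = z^{n} - 1`. -/
noncomputable def Fn (n : ℕ) (z : ℂ) : ℂ := z ^ n - 1

lemma laplacian_GF (k : ℕ) (z : ℂ) : Δ (fun y => Gl (Fn (k + 1) y)) z =
    -(8 * ((k : ℝ) + 1) ^ 2 * ‖z‖ ^ (2 * k) * ((1 + ‖Fn (k + 1) z‖ ^ 2)⁻¹) ^ 2) := by
  have h1 : ∀ y, HasDerivAt (Fn (k + 1)) (((k : ℂ) + 1) * y ^ k) y := by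
    intro y
    have := (hasDerivAt_pow (k + 1) y).sub_const 1
    refine this.congr_deriv ?_
    push_cast
    simp
  have h2 : HasDerivAt (fun y : ℂ => ((k : ℂ) + 1) * y ^ k) (((k : ℂ) + 1) * (k * z ^ (k - 1))) z :=
    (hasDerivAt_pow k z).const_mul _
  rw [laplacian_comp_holo contDiff_Gl h1 h2, laplacian_Gl, norm_mul, norm_pow]
  have h3 : ‖((k : ℂ) + 1)‖ = (k : ℝ) + 1 := by
    have : ((k : ℂ) + 1) = (((k : ℝ) + 1 : ℝ) : ℂ) := by push_cast; rfl
    rw [this, Complex.norm_real, Real.norm_eq_abs, abs_of_pos (by positivity)]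
  rw [h3]
  ring

/-- The solution: `u = 2N log|z| + log A - 2 log(1+|z^n-1|²)`. -/
noncomputable def uSol (N A : ℝ) (n : ℕ) (z : ℂ) : ℝ :=
  2 * N * Real.log ‖z‖ + (Real.log A + Gl (Fn n z))

lemma contDiff_Fn {m : WithTop ℕ∞} (n : ℕ) : ContDiff ℝ m (Fn n) := by
  unfold Fn
  exact (contDiff_id.pow n).sub contDiff_const

lemma uSol_le {N : ℝ} (hN : 0 ≤ N) {n : ℕ} (hn : N ≤ n) {z : ℂ} (hz : z ≠ 0) :
    uSol N (Real.exp (-1) / 5) n z ≤ -1 := by
  have hzp : 0 < ‖z‖ := norm_pos_iff.mpr hz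
  have hlogA : Real.log (Real.exp (-1) / 5) = -1 - Real.log 5 := by
    rw [Real.log_div (Real.exp_pos _).ne' (by norm_num), Real.log_exp]
  have key : 2 * N * Real.log ‖z‖ ≤ Real.log 5 + 2 * Real.log (1 + ‖Fn n z‖ ^ 2) := by
    have h5 : 0 ≤ Real.log 5 := Real.log_nonneg (by norm_num)
    have hF : 0 ≤ Real.log (1 + ‖Fn n z‖ ^ 2) := Real.log_nonneg (by nlinarith [sq_nonneg ‖Fn n z‖])
    rcases le_or_gt ‖z‖ 1 with h | h
    · have : Real.log ‖z‖ ≤ 0 := Real.log_nonpos hzp.le h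
      nlinarith
    · have h0 : 0 ≤ Real.log ‖z‖ := Real.log_nonneg h.le
      have h1 : 2 * N * Real.log ‖z‖ ≤ 2 * n * Real.log ‖z‖ := by
        apply mul_le_mul_of_nonneg_right _ h0; linarith
      have h2 : 2 * n * Real.log ‖z‖ = Real.log ((‖z‖ ^ n) ^ 2) := by
        rw [Real.log_pow, Real.log_pow]; push_cast; ring
      have h3 : ‖z‖ ^ n ≤ 1 + ‖Fn n z‖ := by
        have : z ^ n = 1 + Fn n z := by simp [Fn]
        rw [← norm_pow, this]
        exact (norm_add_le _ _).trans (by simp)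
      have h4 : (‖z‖ ^ n) ^ 2 ≤ 5 * (1 + ‖Fn n z‖ ^ 2) ^ 2 := by
        have h5 : (‖z‖ ^ n) ^ 2 ≤ (1 + ‖Fn n z‖) ^ 2 := by
          apply pow_le_pow_left₀ (by positivity) h3
        nlinarith [sq_nonneg (1 - ‖Fn n z‖), sq_nonneg (‖Fn n z‖), sq_nonneg (‖Fn n z‖ ^ 2)]
      have h6 := Real.log_le_log (by positivity) h4
      have h7 : Real.log ((1 + ‖Fn n z‖ ^ 2) ^ 2) = 2 * Real.log (1 + ‖Fn n z‖ ^ 2) := by
        rw [Real.log_pow]; push_cast; ring
      rw [Real.log_mul (by norm_num) (by positivity), h7] at h6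
      linarith
  unfold uSol Gl
  rw [hlogA]
  linarith

lemma exp_uSol {N A : ℝ} (hA : 0 < A) {n : ℕ} {z : ℂ} (hz : z ≠ 0) :
    Real.exp (uSol N A n z) = A * ‖z‖ ^ (2 * N) * ((1 + ‖Fn n z‖ ^ 2)⁻¹) ^ 2 := by
  have hzp : 0 < ‖z‖ := norm_pos_iff.mpr hz
  have hF : 0 < 1 + ‖Fn n z‖ ^ 2 := by positivity
  unfold uSol Gl
  rw [Real.exp_add, Real.exp_add, Real.exp_log hA, Real.rpow_def_of_pos hzp]
  have : Real.exp (-2 * Real.log (1 + ‖Fn n z‖ ^ 2)) = ((1 + ‖Fn n z‖ ^ 2)⁻¹) ^ 2 := by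
    have h1 : -2 * Real.log (1 + ‖Fn n z‖ ^ 2) = (2 : ℕ) * Real.log ((1 + ‖Fn n z‖ ^ 2)⁻¹) := by
      rw [Real.log_inv]; push_cast; ring
    rw [h1, Real.exp_nat_mul, Real.exp_log (by positivity)]
  rw [this, mul_comm (2 * N) (Real.log ‖z‖)]
  ring

lemma continuous_laplacian {φ : ℂ → ℝ} (hφ : ContDiff ℝ 2 φ) : Continuous (Δ φ) := by
  have : Δ φ = fun x => ∑ i, fderiv ℝ (fun y => fderiv ℝ φ y (stdOrthonormalBasis ℝ ℂ i)) x
    (stdOrthonormalBasis ℝ ℂ i) := by
    ext x; exact laplacian_eq_sum_fderiv hφ x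
  rw [this]
  refine continuous_finsetSum _ fun i _ => ?_
  exact ((contDiff_dir hφ _).continuous_fderiv (by norm_num)).clm_apply continuous_const

lemma hasCompactSupport_laplacian {φ : ℂ → ℝ} (hφ : ContDiff ℝ 2 φ) (hc : HasCompactSupport φ) :
    HasCompactSupport (Δ φ) := by
  have : Δ φ = fun x => ∑ i, fderiv ℝ (fun y => fderiv ℝ φ y (stdOrthonormalBasis ℝ ℂ i)) x
    (stdOrthonormalBasis ℝ ℂ i) := by
    ext x; exact laplacian_eq_sum_fderiv hφ x
  rw [this]
  refine HasCompactSupport.intro (K := tsupport φ) hc fun x hx => ?_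
  refine Finset.sum_eq_zero fun i _ => ?_
  have h1 : x ∉ tsupport (fun y => fderiv ℝ φ y (stdOrthonormalBasis ℝ ℂ i)) :=
    fun h => hx (tsupport_fderiv_apply_subset ℝ _ h)
  rw [fderiv_of_notMem_tsupport _ h1]
  rfl

/-- **Main theorem.** For every real `N ≥ 0` there are `p, q` satisfying (H1)-(H8) and a negative
solution of `Δu + p(|x|) q(e^u) = 4πN δ_0` on `ℝ²` that is not radially symmetric about the
origin.  If `N` is a positive integer then `p` is constant. -/
theorem result (N : ℝ) (hN : 0 ≤ N) : ∃ p q : ℝ → ℝ, Hyp (fOf p) (gOf q) ∧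
    (∀ n : ℕ, 1 ≤ n → N = n → ∀ r, p r = p 1) ∧
    ∃ u : ℂ → ℝ, IsSolution N p q u ∧ IsNegative u ∧ ¬ IsRadial u := by
  obtain ⟨k, hk1, hkN, hkn⟩ : ∃ k : ℕ, 1 ≤ k ∧ N ≤ k ∧ ∀ n : ℕ, 1 ≤ n → N = n → k = n := by
    refine ⟨max 1 ⌈N⌉₊, le_max_left _ _, ?_, ?_⟩
    · exact (Nat.le_ceil N).trans (by exact_mod_cast le_max_right _ _)
    · intro n hn hNn
      rw [hNn, Nat.ceil_natCast]
      exact max_eq_right hn
  set A : ℝ := Real.exp (-1) / 5 with hAdef
  have hA : 0 < A := by positivity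
  set m : ℝ := k - N with hm
  have hm0 : 0 ≤ m := by rw [hm]; linarith
  set p0 : ℝ := 8 * ((k : ℝ) + 1) ^ 2 / A with hp0
  have hp0pos : 0 < p0 := by positivity
  set p : ℝ → ℝ := fun r => p0 * r ^ (2 * m) with hp
  set q : ℝ → ℝ := fun s => gf (Real.log s) with hq
  have hf : fOf p = ff p0 (2 + 2 * m) := by
    funext t
    rw [fOf, ff, hp]
    simp only
    rw [← Real.exp_mul, add_mul, Real.exp_add]
    ring_nf
  have hg : gOf q = gf := by
    funext u
    rw [gOf, hq]
    simp only [Real.log_exp]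
  set u : ℂ → ℝ := uSol N A (k + 1) with hu
  have hz : ∀ᵐ z : ℂ, z ≠ 0 := by
    rw [ae_iff]; simp
  -- the nonlinear term
  have hnl : ∀ z : ℂ, z ≠ 0 → p ‖z‖ * q (Real.exp (u z)) = -Δ (fun y => Gl (Fn (k + 1) y)) z := by
    intro z hz0
    have hzp : 0 < ‖z‖ := norm_pos_iff.mpr hz0
    have h1 : u z ≤ -1 := uSol_le hN (by push_cast; linarith) hz0
    rw [hq]
    simp only [Real.log_exp]
    rw [gf_of_le h1, hu, exp_uSol hA hz0, laplacian_GF, hp]
    simp only
    have h2 : ‖z‖ ^ (2 * m) * ‖z‖ ^ (2 * N) = ‖z‖ ^ (2 * k) := by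
      rw [← Real.rpow_add hzp, ← Real.rpow_natCast]
      congr 1
      rw [hm]; push_cast; ring
    rw [← h2, hp0]
    field_simp
  have hGF : ContDiff ℝ 2 (fun y => Gl (Fn (k + 1) y)) := contDiff_Gl.comp (contDiff_Fn (k + 1))
  have hΔcont : Continuous (fun z : ℂ => -Δ (fun y => Gl (Fn (k + 1) y)) z) := by
    simp only [laplacian_GF, neg_neg]
    have h1 : Continuous (Fn (k + 1)) := (contDiff_Fn (m := 0) (k + 1)).continuous
    refine Continuous.mul (by fun_prop) (Continuous.pow (Continuous.inv₀ (by fun_prop) ?_) 2)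
    intro z; positivity
  refine ⟨p, q, ?_, ?_, u, ⟨?_, ?_, ?_, ?_⟩, ?_, ?_⟩
  · rw [hf, hg]
    exact hyp_ff_gf hp0pos (by linarith)
  · intro n hn hNn r
    have hm' : m = 0 := by rw [hm, hkn n hn hNn, hNn, sub_self]
    rw [hp, hm']
    simp
  · -- local integrability of `u`
    have h1 : LocallyIntegrable (fun z : ℂ => 2 * N * Real.log ‖z‖) := by
      exact locInt_log.smul (2 * N)
    have h2 : LocallyIntegrable (fun z : ℂ => Real.log A + Gl (Fn (k + 1) z)) :=
      (continuous_const.add hGF.continuous).locallyIntegrable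
    exact h1.add h2
  · -- smoothness
    have h1 : ContDiff ℝ (⊤ : ℕ∞) (fun z : ℂ => Real.log A + Gl (Fn (k + 1) z)) :=
      contDiff_const.add (contDiff_Gl.comp (contDiff_Fn (k + 1)))
    refine ContDiffOn.add ?_ h1.contDiffOn
    refine contDiffOn_const.mul ?_
    intro z hz0
    have hz0' : z ≠ 0 := hz0
    exact ((contDiffAt_norm ℝ hz0').log (norm_ne_zero_iff.mpr hz0')).contDiffWithinAt
  · -- local integrability of the nonlinear term
    refine (hΔcont.locallyIntegrable).congr ?_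
    filter_upwards [hz] with z hz0
    exact (hnl z hz0).symm
  · -- the equation
    intro φ hφ hc
    have hφ2 : ContDiff ℝ 2 φ := contDiff_infty.mp hφ 2
    have e1 : ∫ x, p ‖x‖ * q (Real.exp (u x)) * φ x =
        ∫ x, -(Δ (fun y => Gl (Fn (k + 1) y)) x * φ x) := by
      refine integral_congr_ae ?_
      filter_upwards [hz] with z hz0
      rw [hnl z hz0]; ring
    have hΔφ := continuous_laplacian hφ2
    have hΔφs := hasCompactSupport_laplacian hφ2 hc
    have e2 : (∫ x, u x * Δ φ x) = 2 * N * (∫ x : ℂ, Real.log ‖x‖ * Δ φ x) +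
        (∫ x, (Real.log A + Gl (Fn (k + 1) x)) * Δ φ x) := by
      rw [← integral_const_mul, ← integral_add]
      · congr 1
        ext x
        rw [hu, uSol]; ring
      · have := (locInt_log.integrable_smul_right_of_hasCompactSupport hΔφ hΔφs).const_mul (2 * N)
        simpa [smul_eq_mul] using this
      · exact ((continuous_const.add hGF.continuous).mul hΔφ).integrable_of_hasCompactSupport
          hΔφs.mul_left
    have hGF' : ContDiff ℝ 2 (fun y => Real.log A + Gl (Fn (k + 1) y)) := contDiff_const.add hGF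
    have e3 : ∀ x, Δ (fun y => Real.log A + Gl (Fn (k + 1) y)) x =
        Δ (fun y => Gl (Fn (k + 1) y)) x := by
      intro x
      have := ContDiffAt.laplacian_add (contDiffAt_const (c := Real.log A) (x := x) (n := 2) (𝕜 := ℝ))
        hGF.contDiffAt
      have h2 : (fun y => Real.log A + Gl (Fn (k + 1) y)) =
        (fun _ => Real.log A) + (fun y => Gl (Fn (k + 1) y)) := rfl
      rw [h2, this]
      simp
    rw [e1, e2, integral_log_laplacian hφ2 hc, green hGF' hφ2 hc, integral_neg]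
    simp only [e3]
    ring
  · intro z hz0
    have h1 : u z ≤ -1 := uSol_le hN (by push_cast; linarith) hz0
    linarith
  · -- not radial
    intro hrad
    set ζ : ℂ := Complex.exp ((Real.pi / (k + 1) : ℝ) * Complex.I) with hζ
    have h1 : ‖ζ‖ = 1 := Complex.norm_exp_ofReal_mul_I _
    have h2 : ζ ^ (k + 1) = -1 := by
      rw [hζ, ← Complex.exp_nat_mul]
      have : ((k + 1 : ℕ) : ℂ) * (((Real.pi / (k + 1) : ℝ) : ℂ) * Complex.I) = Real.pi * Complex.I := by
        have h3 : ((k : ℂ) + 1) ≠ 0 := by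
          have : ((k + 1 : ℕ) : ℂ) ≠ 0 := by exact_mod_cast Nat.succ_ne_zero k
          simpa using this
        push_cast
        field_simp
      rw [this, Complex.exp_pi_mul_I]
    have h3 := hrad 1 ζ one_ne_zero (by rw [h1, norm_one])
    rw [hu] at h3
    unfold uSol Gl Fn at h3
    rw [h1, h2, one_pow, norm_one] at h3
    have h4 : ‖(-1 : ℂ) - 1‖ = 2 := by
      have : (-1 : ℂ) - 1 = -2 := by norm_num
      rw [this, norm_neg]; simp
    rw [h4] at h3
    simp at h3
    have h5 : 0 < Real.log (1 + 2 ^ 2) := Real.log_pos (by norm_num)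
    norm_num at h3


end Pool.Agent.Results.MP_ad2fa1_an.NonRadial
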